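import Mathlib

/-!
# Maximal multiplicities in almost Golomb sequences

For every order the almost Golomb sequence exists and is unique, its maximal multiplicity is
`G (r - 1)` for `5 ≤ r`, and the thresholds are `S (k - 1) + 2`.
-/

namespace Pool.Agent.Results.MP_ac9862_nt.Thresholds

open Finset

/-- The sum `a n + a (n - 1) + ... + a (n - r + 1)`; terms at non-positive indices are `a 0`. -/
def windowSum (r : ℕ) (a : ℕ → ℕ) (n : ℕ) : ℕ := ∑ i ∈ range r, a (n - i)

/-- Nondecreasing sequences of positive integers (indexed by `n ≥ 1`, with the value `0` at all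
other indices) satisfying `a (a n + a (n - 1) + ... + a (n - r + 1)) = n` for all `n ≥ 1`. -/
structure Admissible (r : ℕ) (a : ℕ → ℕ) : Prop where
  zero : a 0 = 0
  pos : ∀ n, 1 ≤ n → 1 ≤ a n
  mono : ∀ n, 1 ≤ n → a n ≤ a (n + 1)
  nested : ∀ n, 1 ≤ n → a (windowSum r a n) = n

/-- The almost Golomb sequence of order `r`: the greedy admissible sequence; at every index its
value is the least one among all admissible sequences with the same earlier values. -/
structure IsAlmostGolomb (r : ℕ) (a : ℕ → ℕ) : Prop where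
  admissible : Admissible r a
  greedy : ∀ b, Admissible r b → ∀ n, (∀ i, i < n → b i = a i) → a n ≤ b n

/-- The multiplicity of the value `n` in the sequence `a` (indexed by `i ≥ 1`). -/
noncomputable def mult (a : ℕ → ℕ) (n : ℕ) : ℕ∞ := {i : ℕ | 1 ≤ i ∧ a i = n}.encard

/-- The supremum of all multiplicities of values `n ≥ 1`. -/
noncomputable def maxMult (a : ℕ → ℕ) : ℕ∞ := ⨆ n : ℕ, ⨆ _ : 1 ≤ n, mult a n

/-- Golomb's sequence: positive, nondecreasing, each `n ≥ 1` occurs exactly `G n` times. -/
structure IsGolomb (G : ℕ → ℕ) : Prop where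
  zero : G 0 = 0
  pos : ∀ n, 1 ≤ n → 1 ≤ G n
  mono : ∀ n, 1 ≤ n → G n ≤ G (n + 1)
  count : ∀ n, 1 ≤ n → mult G n = (G n : ℕ∞)

/-! ### Strong recursion -/

/-- Sequence defined by recursion over all earlier values. -/
def recSeq (F : ℕ → (ℕ → ℕ) → ℕ) (n : ℕ) : ℕ :=
  F n (fun m => if m < n then recSeq F m else 0)
termination_by n

theorem recSeq_eq (F : ℕ → (ℕ → ℕ) → ℕ) (n : ℕ) :
    recSeq F n = F n (fun m => if m < n then recSeq F m else 0) := by
  rw [recSeq]

/-! ### Construction of the sequence -/

/-- One step of the construction. -/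
def stepA (r n : ℕ) (g : ℕ → ℕ) : ℕ :=
  if n ≤ 2 then n else if n = 3 then 2 else
    if n = windowSum r g (g (n - 1) + 1) then g (n - 1) + 1 else g (n - 1)

/-- The almost Golomb sequence of order `r` (see `isAlmostGolomb_A`). -/
def A (r : ℕ) : ℕ → ℕ := recSeq (stepA r)

theorem A_zero (r : ℕ) : A r 0 = 0 := by
  unfold A; rw [recSeq_eq]; simp [stepA]

theorem A_one (r : ℕ) : A r 1 = 1 := by
  unfold A; rw [recSeq_eq]; simp [stepA]

theorem A_two (r : ℕ) : A r 2 = 2 := by
  unfold A; rw [recSeq_eq]; simp [stepA]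

theorem A_three (r : ℕ) : A r 3 = 2 := by
  unfold A; rw [recSeq_eq]; simp [stepA]

/-- Raw form of the recursion. -/
theorem A_succ_raw (r n : ℕ) (hn : 3 ≤ n) :
    ∃ g : ℕ → ℕ, (∀ m, m < n + 1 → g m = A r m) ∧
      A r (n + 1) = if n + 1 = windowSum r g (A r n + 1) then A r n + 1 else A r n := by
  refine ⟨fun m => if m < n + 1 then A r m else 0, ?_, ?_⟩
  · intro m hm
    simp [hm]
  · have h1 : A r (n + 1) = stepA r (n + 1) (fun m => if m < n + 1 then A r m else 0) := by
      unfold A
      rw [recSeq_eq]
    rw [h1]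
    unfold stepA
    have h2 : ¬ (n + 1 ≤ 2) := by omega
    have h3 : ¬ (n + 1 = 3) := by omega
    rw [if_neg h2, if_neg h3]
    have h4 : n + 1 - 1 = n := by omega
    rw [h4]
    simp only [Nat.lt_succ_self, if_true]

theorem A_slow (r n : ℕ) : A r n ≤ A r (n + 1) ∧ A r (n + 1) ≤ A r n + 1 := by
  rcases Nat.lt_or_ge n 3 with h | h
  · interval_cases n
    · simp [A_zero, A_one]
    · simp [A_one, A_two]
    · simp [A_two, A_three]
  · obtain ⟨g, -, hg⟩ := A_succ_raw r n h
    rw [hg]
    split_ifs <;> omega

theorem A_mono (r : ℕ) : Monotone (A r) := monotone_nat_of_le_succ fun n => (A_slow r n).1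

theorem A_lip (r x k : ℕ) : A r (x + k) ≤ A r x + k := by
  induction k with
  | zero => simp
  | succ k ih =>
    have := (A_slow r (x + k)).2
    have e : x + (k + 1) = x + k + 1 := by omega
    rw [e]; omega

theorem A_le (r n : ℕ) : A r n ≤ n := by
  have := A_lip r 0 n
  rw [A_zero] at this
  simpa using this

theorem A_lt (r n : ℕ) (hn : 3 ≤ n) : A r n + 1 ≤ n := by
  have := A_lip r 3 (n - 3)
  rw [A_three] at this
  have e : 3 + (n - 3) = n := by omega
  rw [e] at this; omega

theorem A_pos (r n : ℕ) (hn : 1 ≤ n) : 1 ≤ A r n := by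
  have := A_mono r hn
  rw [A_one] at this; exact this

theorem windowSum_congr (r : ℕ) (a b : ℕ → ℕ) (n : ℕ) (h : ∀ m, m ≤ n → a m = b m) :
    windowSum r a n = windowSum r b n := by
  unfold windowSum
  exact Finset.sum_congr rfl fun i _ => h _ (Nat.sub_le _ _)

/-- The recursion: a jump occurs at `n + 1` exactly when `n + 1` is the next window sum. -/
theorem A_succ (r n : ℕ) (hn : 3 ≤ n) :
    A r (n + 1) = if n + 1 = windowSum r (A r) (A r n + 1) then A r n + 1 else A r n := by
  obtain ⟨g, hg1, hg2⟩ := A_succ_raw r n hn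
  have h := A_lt r n hn
  have : windowSum r g (A r n + 1) = windowSum r (A r) (A r n + 1) :=
    windowSum_congr r _ _ _ fun m hm => hg1 m (by omega)
  rw [hg2, this]

/-! ### Window sums -/

theorem windowSum_succ (r : ℕ) (hr : 1 ≤ r) (a : ℕ → ℕ) (w : ℕ) :
    windowSum r a (w + 1) + a (w + 1 - r) = windowSum r a w + a (w + 1) := by
  obtain ⟨q, rfl⟩ : ∃ q, r = q + 1 := ⟨r - 1, by omega⟩
  unfold windowSum
  rw [Finset.sum_range_succ', Finset.sum_range_succ (fun i => a (w - i))]
  have h1 : ∑ i ∈ range q, a (w + 1 - (i + 1)) = ∑ i ∈ range q, a (w - i) :=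
    Finset.sum_congr rfl fun i _ => by congr 1; omega
  have h2 : w + 1 - (q + 1) = w - q := by omega
  rw [h1, h2]
  simp only [Nat.sub_zero]
  omega

theorem windowSum_mono (r : ℕ) (a : ℕ → ℕ) (ha : Monotone a) : Monotone (windowSum r a) := by
  intro x y hxy
  unfold windowSum
  exact Finset.sum_le_sum fun i _ => ha (Nat.sub_le_sub_right hxy i)

/-- lower bound by the first two terms -/
theorem windowSum_ge_two (r : ℕ) (hr : 2 ≤ r) (a : ℕ → ℕ) (n : ℕ) :
    a n + a (n - 1) ≤ windowSum r a n := by
  unfold windowSum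
  have : ∑ i ∈ range 2, a (n - i) ≤ ∑ i ∈ range r, a (n - i) :=
    Finset.sum_le_sum_of_subset (Finset.range_mono hr)
  simpa [Finset.sum_range_succ] using this

theorem windowSum_ge_three (r : ℕ) (hr : 3 ≤ r) (a : ℕ → ℕ) (n : ℕ) :
    a n + a (n - 1) + a (n - 2) ≤ windowSum r a n := by
  unfold windowSum
  have : ∑ i ∈ range 3, a (n - i) ≤ ∑ i ∈ range r, a (n - i) :=
    Finset.sum_le_sum_of_subset (Finset.range_mono hr)
  simpa [Finset.sum_range_succ] using this

theorem windowSum_le_all (r : ℕ) (a : ℕ → ℕ) (h0 : a 0 = 0) (n : ℕ) :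
    windowSum r a n ≤ ∑ j ∈ range (n + 1), a j := by
  unfold windowSum
  have h1 : ∑ i ∈ range r, a (n - i) ≤ ∑ i ∈ range (r + (n + 1)), a (n - i) :=
    Finset.sum_le_sum_of_subset (Finset.range_mono (by omega))
  refine h1.trans ?_
  have h2 : ∑ i ∈ range (n + 1 + r), a (n - i) = ∑ i ∈ range (n + 1), a (n - i) := by
    rw [Finset.sum_range_add]
    have : ∑ x ∈ range r, a (n - (n + 1 + x)) = 0 := by
      apply Finset.sum_eq_zero
      intro x _
      have : n - (n + 1 + x) = 0 := by omega
      rw [this, h0]
    omega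
  rw [add_comm r (n + 1), h2]
  have := Finset.sum_range_reflect a (n + 1)
  rw [← this]
  apply le_of_eq
  exact Finset.sum_congr rfl fun i _ => by congr 1

theorem windowSum_eq_all (r : ℕ) (a : ℕ → ℕ) (h0 : a 0 = 0) (n : ℕ) (hn : n ≤ r) :
    windowSum r a n = ∑ j ∈ range (n + 1), a j := by
  unfold windowSum
  have h2 : ∑ i ∈ range (n + (r - n)), a (n - i) = ∑ i ∈ range n, a (n - i) := by
    rw [Finset.sum_range_add]
    have : ∑ x ∈ range (r - n), a (n - (n + x)) = 0 := by
      apply Finset.sum_eq_zero
      intro x _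
      have : n - (n + x) = 0 := by omega
      rw [this, h0]
    omega
  have e : n + (r - n) = r := by omega
  rw [e] at h2
  rw [h2]
  have h3 : ∑ j ∈ range (n + 1), a j = ∑ j ∈ range n, a (j + 1) + a 0 :=
    Finset.sum_range_succ' a n
  rw [h3, h0, add_zero]
  have := Finset.sum_range_reflect (fun j => a (j + 1)) n
  rw [← this]
  apply Finset.sum_congr rfl
  intro i hi
  rw [Finset.mem_range] at hi
  congr 1
  omega

/-! ### Positions of the values -/

theorem windowSum_three (r : ℕ) (hr : 2 ≤ r) : 4 ≤ windowSum r (A r) 3 := by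
  have := windowSum_ge_two r hr (A r) 3
  rw [A_three] at this
  have e : A r (3 - 1) = 2 := A_two r
  rw [e] at this; omega

theorem windowSum_three_eq (r : ℕ) (hr : 3 ≤ r) : windowSum r (A r) 3 = 5 := by
  rw [windowSum_eq_all r (A r) (A_zero r) 3 hr]
  simp [Finset.sum_range_succ, A_zero, A_one, A_two, A_three]

theorem windowSum_three_eq' : windowSum 2 (A 2) 3 = 4 := by
  simp [windowSum, Finset.sum_range_succ, A_two, A_three]

/-- If `w ≤ A n` then the window sum of `w` is at most `n`. -/
theorem windowSum_le_of_le (r : ℕ) (w : ℕ) (hw : 3 ≤ w) :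
    ∀ n, w ≤ A r n → windowSum r (A r) w ≤ n := by
  intro n
  induction n with
  | zero => intro h; rw [A_zero] at h; omega
  | succ n ih =>
    intro h
    rcases Nat.lt_or_ge n 3 with hn | hn
    · exfalso
      have := A_mono r (show n + 1 ≤ 3 by omega)
      rw [A_three] at this
      omega
    · have hs := A_succ r n hn
      split_ifs at hs with hj
      · rcases Nat.lt_or_ge (A r n) w with hlt | hge
        · have : w = A r n + 1 := by omega
          rw [this, ← hj]
        · exact (ih hge).trans (Nat.le_succ n)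
      · rw [hs] at h
        exact (ih h).trans (Nat.le_succ n)

theorem step_le (r : ℕ) (hr : 2 ≤ r) (w : ℕ) :
    windowSum r (A r) (w + 1) ≤ windowSum r (A r) w + r := by
  have h := windowSum_succ r (by omega) (A r) w
  have h2 : A r (w + 1) ≤ A r (w + 1 - r) + r := by
    rcases Nat.lt_or_ge (w + 1) r with h3 | h3
    · have := A_le r (w + 1)
      omega
    · have := A_lip r (w + 1 - r) r
      have e : w + 1 - r + r = w + 1 := by omega
      rwa [e] at this
  omega

/-- The next jump lies strictly to the right. -/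
theorem inv (r : ℕ) (hr : 2 ≤ r) : ∀ n, 3 ≤ n → n < windowSum r (A r) (A r n + 1) := by
  intro n
  induction n using Nat.strong_induction_on with
  | _ n ih =>
    intro hn
    rcases Nat.eq_or_lt_of_le hn with h3 | h3
    · subst h3
      rw [A_three]
      exact windowSum_three r hr
    · obtain ⟨m, rfl⟩ : ∃ m, n = m + 1 := ⟨n - 1, by omega⟩
      have hm : 3 ≤ m := by omega
      have hi := ih m (by omega) hm
      have hs := A_succ r m hm
      split_ifs at hs with hj
      · -- jump
        have hv := A_lt r m hm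
        have hv2 : 2 ≤ A r m := by
          have := A_mono r hm
          rwa [A_three] at this
        rw [hs]
        have h1 := windowSum_succ r (by omega) (A r) (A r m + 1)
        suffices h2 : A r (A r m + 1 + 1 - r) < A r (A r m + 1 + 1) by omega
        by_contra hcon
        have hle : A r (A r m + 1 + 1 - r) ≤ A r (A r m + 1 + 1) := A_mono r (Nat.sub_le _ _)
        have heq : A r (A r m + 1 + 1 - r) = A r (A r m + 1 + 1) := by omega
        set k := A r m + 1 + 1 - r with hk
        have hkpos : 1 ≤ k := by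
          by_contra h0
          have : k = 0 := by omega
          rw [this, A_zero] at heq
          have := A_pos r (A r m + 1 + 1) (by omega)
          omega
        have hkr : k + r = A r m + 1 + 1 := by omega
        rcases Nat.lt_or_ge m (A r m + 1 + 1) with hc | hc
        · -- `A m + 2 = m + 1`
          have e1 : A r m + 1 + 1 = m + 1 := by omega
          rw [e1, hs] at heq
          have h5 : A r k ≤ A r (m - 1) := A_mono r (by omega)
          have h6 := A_le r (m - 1)
          omega
        · have h7 := ih (A r m + 1 + 1) (by omega) (by omega)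
          set u := A r (A r m + 1 + 1) with hu
          rcases Nat.lt_or_ge u 3 with hu3 | hu3
          · have hu2 : 2 ≤ u := by
              have := A_mono r (show 3 ≤ A r m + 1 + 1 by omega)
              rwa [A_three] at this
            have hu2' : u = 2 := by omega
            have hk2 : 2 ≤ k := by
              by_contra h0
              have : k = 1 := by omega
              rw [this, A_one] at heq
              omega
            rw [hu2'] at h7
            rcases Nat.eq_or_lt_of_le hr with hr2 | hr2
            · subst hr2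
              have h8 := windowSum_three_eq'
              norm_num at h7
              omega
            · have h8 := windowSum_three_eq r hr2
              norm_num at h7
              omega
          · have h8 := windowSum_le_of_le r u hu3 k (le_of_eq heq.symm)
            have h9 := step_le r hr u
            omega
      · rw [hs]; omega

theorem le_A_iff (r : ℕ) (hr : 2 ≤ r) (w n : ℕ) (hw : 3 ≤ w) :
    w ≤ A r n ↔ windowSum r (A r) w ≤ n := by
  constructor
  · exact windowSum_le_of_le r w hw n
  · intro h
    by_contra hcon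
    push Not at hcon
    rcases Nat.lt_or_ge n 3 with hn | hn
    · have h1 := windowSum_mono r (A r) (A_mono r) hw
      have h2 := windowSum_three r hr
      omega
    · have h1 := inv r hr n hn
      have h2 := windowSum_mono r (A r) (A_mono r) (show A r n + 1 ≤ w by omega)
      omega

theorem two_le_A_iff (r n : ℕ) : 2 ≤ A r n ↔ 2 ≤ n := by
  constructor
  · intro h
    exact h.trans (A_le r n)
  · intro h
    have := A_mono r h
    rwa [A_two] at this

theorem A_windowSum (r : ℕ) (hr : 2 ≤ r) (w : ℕ) (hw : 3 ≤ w) :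
    A r (windowSum r (A r) w) = w := by
  apply le_antisymm
  · by_contra hcon
    push Not at hcon
    have h1 := (le_A_iff r hr (w + 1) (windowSum r (A r) w) (by omega)).1 hcon
    -- window sums are strictly increasing, because every value occurs
    have h2 := (le_A_iff r hr w (windowSum r (A r) w) hw).2 le_rfl
    have h3 : windowSum r (A r) w = windowSum r (A r) (w + 1) :=
      le_antisymm (windowSum_mono r (A r) (A_mono r) (Nat.le_succ w)) h1
    set p := windowSum r (A r) w with hp
    have hp3 : 4 ≤ p := (windowSum_three r hr).trans (windowSum_mono r (A r) (A_mono r) hw)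
    -- at `p - 1` the value is below `w`, so at `p` it is at most `w`
    have h4 : ¬ w ≤ A r (p - 1) := by
      rw [le_A_iff r hr w (p - 1) hw]
      omega
    have h5 := (A_slow r (p - 1)).2
    have e : p - 1 + 1 = p := by omega
    rw [e] at h5
    omega
  · exact (le_A_iff r hr w _ hw).2 le_rfl

theorem windowSum_lt_succ (r : ℕ) (hr : 2 ≤ r) (w : ℕ) (hw : 3 ≤ w) :
    windowSum r (A r) w < windowSum r (A r) (w + 1) := by
  by_contra hcon
  push Not at hcon
  have h1 := (le_A_iff r hr (w + 1) (windowSum r (A r) w) (by omega)).2 hcon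
  rw [A_windowSum r hr w hw] at h1
  omega

theorem admissible_A (r : ℕ) (hr : 2 ≤ r) : Admissible r (A r) := by
  refine ⟨A_zero r, A_pos r, fun n _ => (A_slow r n).1, ?_⟩
  intro n hn
  rcases Nat.lt_or_ge n 3 with h | h
  · obtain ⟨q, rfl⟩ : ∃ q, r = q + 2 := ⟨r - 2, by omega⟩
    interval_cases n
    · rw [windowSum_eq_all _ _ (A_zero _) 1 (by omega)]
      simp [Finset.sum_range_succ, A_zero, A_one]
    · rw [windowSum_eq_all _ _ (A_zero _) 2 (by omega)]
      simp [Finset.sum_range_succ, A_zero, A_one, A_two, A_three]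
  · exact A_windowSum r hr n h

theorem isAlmostGolomb_A (r : ℕ) (hr : 2 ≤ r) : IsAlmostGolomb r (A r) := by
  refine ⟨admissible_A r hr, ?_⟩
  intro b hb n hn
  by_contra hcon
  push Not at hcon
  rcases Nat.lt_or_ge n 3 with h | h
  · interval_cases n
    · rw [A_zero] at hcon; omega
    · have := hb.pos 1 le_rfl
      rw [A_one] at hcon; omega
    · have h1 := hb.pos 2 (by norm_num)
      rw [A_two] at hcon
      have hb2 : b 2 = 1 := by omega
      have hb1 : b 1 = 1 := by rw [hn 1 (by norm_num), A_one]
      have h2 := hb.nested 2 (by norm_num)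
      rw [windowSum_eq_all r b hb.zero 2 hr] at h2
      simp [Finset.sum_range_succ, hb.zero, hb1, hb2] at h2
  · -- `n` is the first position of the value `w = A n`
    have h1 : b (n - 1) ≤ b n := by
      have := hb.mono (n - 1) (by omega)
      have e : n - 1 + 1 = n := by omega
      rwa [e] at this
    rw [hn (n - 1) (by omega)] at h1
    have h2 := (A_slow r (n - 1)).2
    have e : n - 1 + 1 = n := by omega
    rw [e] at h2
    have h3 : A r (n - 1) + 1 = A r n := by omega
    have h4 : b n = A r n - 1 := by omega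
    have hw : 3 ≤ A r n := by
      by_contra h0
      have h5 : 2 ≤ A r (n - 1) := (two_le_A_iff r (n - 1)).2 (by omega)
      omega
    have h5 : windowSum r (A r) (A r n) = n := by
      apply le_antisymm
      · exact (le_A_iff r hr _ _ hw).1 le_rfl
      · by_contra h0
        push Not at h0
        have := (le_A_iff r hr (A r n) (n - 1) hw).2 (by omega)
        omega
    have h6 := A_lt r n h
    have h7 : windowSum r b (A r n) = n := by
      rw [← h5]
      conv_lhs => rw [h5]
      exact windowSum_congr r _ _ _ fun m hm => hn m (by omega)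
    have h8 := hb.nested (A r n) (by omega)
    rw [h7] at h8
    omega

theorem isAlmostGolomb_unique (r : ℕ) (a b : ℕ → ℕ) (ha : IsAlmostGolomb r a)
    (hb : IsAlmostGolomb r b) : a = b := by
  funext n
  induction n using Nat.strong_induction_on with
  | _ n ih =>
    exact le_antisymm (ha.greedy b hb.admissible n fun i hi => (ih i hi).symm)
      (hb.greedy a ha.admissible n fun i hi => ih i hi)

/-! ### Multiplicities -/

theorem mult_eq (r : ℕ) (hr : 2 ≤ r) (w : ℕ) (hw : 3 ≤ w) :
    mult (A r) w = ((A r (w + 1) - A r (w + 1 - r) : ℕ) : ℕ∞) := by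
  have h1 : {i : ℕ | 1 ≤ i ∧ A r i = w}
      = (Finset.Ico (windowSum r (A r) w) (windowSum r (A r) (w + 1)) : Set ℕ) := by
    ext i
    simp only [Set.mem_ofPred_eq, Finset.coe_Ico, Set.mem_Ico]
    rw [← le_A_iff r hr w i hw, ← not_le, ← le_A_iff r hr (w + 1) i (by omega)]
    constructor
    · rintro ⟨-, h⟩; omega
    · rintro ⟨h, h'⟩
      refine ⟨?_, by omega⟩
      by_contra h0
      have : i = 0 := by omega
      rw [this, A_zero] at h
      omega
  unfold mult
  rw [h1, Set.encard_coe_eq_coe_finsetCard, Nat.card_Ico]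
  congr 1
  have h2 := windowSum_succ r (by omega) (A r) w
  have h3 := A_mono r (show w + 1 - r ≤ w + 1 by omega)
  omega

theorem mult_one (r : ℕ) : mult (A r) 1 = 1 := by
  have h1 : {i : ℕ | 1 ≤ i ∧ A r i = 1} = {1} := by
    ext i
    simp only [Set.mem_ofPred_eq, Set.mem_singleton_iff]
    constructor
    · rintro ⟨h, h'⟩
      by_contra h0
      have := (two_le_A_iff r i).2 (by omega)
      omega
    · rintro rfl
      exact ⟨le_rfl, A_one r⟩
  unfold mult
  rw [h1, Set.encard_singleton]

theorem mult_two (r : ℕ) (hr : 2 ≤ r) : mult (A r) 2 ≤ 3 := by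
  have h1 : {i : ℕ | 1 ≤ i ∧ A r i = 2}
      ⊆ (Finset.Ico 2 5 : Set ℕ) := by
    intro i
    simp only [Set.mem_ofPred_eq, Finset.coe_Ico, Set.mem_Ico]
    rintro ⟨h, h'⟩
    refine ⟨(two_le_A_iff r i).1 (by omega), ?_⟩
    by_contra h0
    push Not at h0
    have h2 : windowSum r (A r) 3 ≤ 5 := by
      rcases Nat.eq_or_lt_of_le hr with h3 | h3
      · subst h3; rw [windowSum_three_eq']; norm_num
      · rw [windowSum_three_eq r h3]
    have := (le_A_iff r hr 3 i le_rfl).2 (by omega)
    omega
  unfold mult
  refine (Set.encard_le_encard h1).trans ?_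
  rw [Set.encard_coe_eq_coe_finsetCard, Nat.card_Ico]
  norm_num

/-- The combinatorial heart: if `g` bounds the growth over the first window then it bounds
all multiplicities. -/
theorem growth_le (r g : ℕ) (hr : 3 ≤ r) (hg : 3 ≤ g) (hA : A r r ≤ g)
    (hsum : ∀ v, 2 ≤ v → v + g + 1 ≤ r → r ≤ ∑ j ∈ Finset.Ico (v + 2) (v + g + 2), A r j) :
    ∀ m, 3 ≤ m → A r (m + 1) ≤ A r (m + 1 - r) + g := by
  intro m
  induction m using Nat.strong_induction_on with
  | _ m ih =>
    intro hm
    rcases Nat.lt_or_ge r (m + 1) with hmr | hmr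
    swap
    · have := A_mono r hmr
      omega
    obtain ⟨x, hx, hmx⟩ : ∃ x, 1 ≤ x ∧ m + 1 = x + r := ⟨m + 1 - r, by omega, by omega⟩
    have hxe : m + 1 - r = x := by omega
    rw [hxe]
    by_contra hcon
    push Not at hcon
    rcases Nat.lt_or_ge (A r x) 2 with hv | hv
    · have hx1 : x = 1 := by
        by_contra h0
        have := (two_le_A_iff r x).2 (by omega)
        omega
      subst hx1
      have h1 := (A_slow r r).2
      have e : m + 1 = r + 1 := by omega
      rw [e, A_one] at hcon
      omega
    · set v := A r x with hvdef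
      have hvx : v ≤ x := A_le r x
      have h1 : windowSum r (A r) (v + 1 + g) ≤ m + 1 :=
        (le_A_iff r (by omega) (v + 1 + g) (m + 1) (by omega)).1 (by omega)
      have h2 : x < windowSum r (A r) (v + 1) := by
        by_contra h0
        have := (le_A_iff r (by omega) (v + 1) x (by omega)).2 (by omega)
        omega
      rcases Nat.lt_or_ge r (v + 1 + g) with hc | hc
      · -- all windows of length `g` contain a step
        have h3 : ∀ j ∈ range r, A r (v + 1 - j) + 1 ≤ A r (v + 1 + g - j) := by
          intro j hj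
          rw [Finset.mem_range] at hj
          rcases Nat.lt_or_ge j (v + 1) with hjv | hjv
          · obtain ⟨y, hy, hye⟩ : ∃ y, 1 ≤ y ∧ v + 1 = y + j := ⟨v + 1 - j, by omega, by omega⟩
            have e1 : v + 1 - j = y := by omega
            have e2 : v + 1 + g - j = y + g := by omega
            rw [e1, e2]
            by_contra h0
            have hmono := A_mono r (show y ≤ y + g by omega)
            have heq : A r (y + g) = A r y := by omega
            set u := A r y with hudef
            have hu1 : 1 ≤ u := A_pos r y hy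
            have hy4 : 2 ≤ A r (y + g) := (two_le_A_iff r _).2 (by omega)
            rcases Nat.lt_or_ge u 3 with hu3 | hu3
            · have hu2 : u = 2 := by omega
              have hy2 : 2 ≤ y := (two_le_A_iff r y).1 (by omega)
              have h5 := (le_A_iff r (by omega) 3 (y + g) le_rfl).2
                (by rw [windowSum_three_eq r hr]; omega)
              omega
            · have h5 : u ≤ A r (v + 1) := A_mono r (by omega)
              have h6 := A_lt r (v + 1) (by omega)
              have h7 := ih u (by omega) hu3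
              have h8 := windowSum_succ r (by omega) (A r) u
              have h9 := (le_A_iff r (by omega) u y hu3).1 le_rfl
              have h10 : ¬ windowSum r (A r) (u + 1) ≤ y + g := by
                rw [← le_A_iff r (by omega) (u + 1) (y + g) (by omega)]
                omega
              omega
          · have e1 : v + 1 - j = 0 := by omega
            rw [e1, A_zero]
            exact A_pos r _ (by omega)
        have h4 : windowSum r (A r) (v + 1) + r ≤ windowSum r (A r) (v + 1 + g) := by
          have h5 := Finset.sum_le_sum h3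
          rw [Finset.sum_add_distrib, Finset.sum_const, Finset.card_range, smul_eq_mul,
            mul_one] at h5
          exact h5
        omega
      · have h3 := hsum v hv (by omega)
        rw [windowSum_eq_all r (A r) (A_zero r) (v + 1 + g) hc] at h1
        rw [windowSum_eq_all r (A r) (A_zero r) (v + 1) (by omega)] at h2
        have h4 : ∑ j ∈ range (v + 1 + g + 1), A r j
            = ∑ j ∈ range (v + 1 + 1), A r j + ∑ j ∈ Finset.Ico (v + 2) (v + g + 2), A r j := by
          have e : v + 1 + g + 1 = v + g + 2 := by omega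
          rw [e, Finset.sum_range_add_sum_Ico _ (by omega)]
        omega

/-! ### Golomb's sequence -/

theorem golomb_mono {G : ℕ → ℕ} (hG : IsGolomb G) {x y : ℕ} (hx : 1 ≤ x) (hxy : x ≤ y) :
    G x ≤ G y := by
  induction y, hxy using Nat.le_induction with
  | base => exact le_rfl
  | succ n hn ih => exact ih.trans (hG.mono n (by omega))

theorem golomb_encard {G : ℕ → ℕ} (hG : IsGolomb G) (w : ℕ) (hw : 1 ≤ w) :
    {i : ℕ | 1 ≤ i ∧ G i < w}.encard = ((∑ u ∈ Finset.Ico 1 w, G u : ℕ) : ℕ∞) := by
  induction w, hw using Nat.le_induction with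
  | base =>
    have : {i : ℕ | 1 ≤ i ∧ G i < 1} = ∅ := by
      ext i
      simp only [Set.mem_ofPred_eq, Set.mem_empty_iff_false, iff_false, not_and, not_lt]
      intro hi
      exact hG.pos i hi
    rw [this]
    simp
  | succ w hw ih =>
    have h1 : {i : ℕ | 1 ≤ i ∧ G i < w + 1}
        = {i : ℕ | 1 ≤ i ∧ G i < w} ∪ {i : ℕ | 1 ≤ i ∧ G i = w} := by
      ext i
      simp only [Set.mem_ofPred_eq, Set.mem_union]
      constructor
      · rintro ⟨h, h'⟩
        rcases Nat.lt_or_ge (G i) w with h2 | h2
        · exact Or.inl ⟨h, h2⟩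
        · exact Or.inr ⟨h, by omega⟩
      · rintro (⟨h, h'⟩ | ⟨h, h'⟩)
        · exact ⟨h, by omega⟩
        · exact ⟨h, by omega⟩
    have h2 : Disjoint {i : ℕ | 1 ≤ i ∧ G i < w} {i : ℕ | 1 ≤ i ∧ G i = w} := by
      rw [Set.disjoint_left]
      intro i hi hi'
      simp only [Set.mem_ofPred_eq] at hi hi'
      omega
    have h3 : {i : ℕ | 1 ≤ i ∧ G i = w}.encard = (G w : ℕ∞) := hG.count w hw
    rw [h1, Set.encard_union_eq h2, ih, h3, Finset.sum_Ico_succ_top hw]
    push_cast
    rfl

/-- The value of Golomb's sequence at `n` is below `w` exactly when `n` is at most the sum of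
the first `w - 1` terms. -/
theorem golomb_lt_iff {G : ℕ → ℕ} (hG : IsGolomb G) (w n : ℕ) (hw : 1 ≤ w) (hn : 1 ≤ n) :
    G n < w ↔ n ≤ ∑ u ∈ Finset.Ico 1 w, G u := by
  have he := golomb_encard hG w hw
  constructor
  · intro h
    have h1 : (Finset.Icc 1 n : Set ℕ) ⊆ {i : ℕ | 1 ≤ i ∧ G i < w} := by
      intro i hi
      rw [Finset.coe_Icc, Set.mem_Icc] at hi
      exact ⟨hi.1, lt_of_le_of_lt (golomb_mono hG hi.1 hi.2) h⟩
    have h2 := Set.encard_le_encard h1
    rw [he, Set.encard_coe_eq_coe_finsetCard, Nat.card_Icc] at h2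
    have h3 : n + 1 - 1 ≤ ∑ u ∈ Finset.Ico 1 w, G u := by exact_mod_cast h2
    omega
  · intro h
    by_contra h0
    have h1 : {i : ℕ | 1 ≤ i ∧ G i < w} ⊆ (Finset.Icc 1 (n - 1) : Set ℕ) := by
      intro i hi
      simp only [Set.mem_ofPred_eq] at hi
      rw [Finset.coe_Icc, Set.mem_Icc]
      refine ⟨hi.1, ?_⟩
      by_contra h2
      have := golomb_mono hG hn (show n ≤ i by omega)
      omega
    have h2 := Set.encard_le_encard h1
    rw [he, Set.encard_coe_eq_coe_finsetCard, Nat.card_Icc] at h2
    have h3 : ∑ u ∈ Finset.Ico 1 w, G u ≤ n - 1 + 1 - 1 := by exact_mod_cast h2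
    omega

theorem golomb_one {G : ℕ → ℕ} (hG : IsGolomb G) : G 1 = 1 := by
  have h := golomb_lt_iff hG 2 1 (by norm_num) le_rfl
  have h1 := hG.pos 1 le_rfl
  have h2 : ∑ u ∈ Finset.Ico 1 2, G u = G 1 := by simp
  rw [h2] at h
  have := h.2 h1
  omega

theorem golomb_two_le {G : ℕ → ℕ} (hG : IsGolomb G) (n : ℕ) (hn : 2 ≤ n) : 2 ≤ G n := by
  by_contra h0
  have h := (golomb_lt_iff hG 2 n (by norm_num) (by omega)).1 (by omega)
  have h2 : ∑ u ∈ Finset.Ico 1 2, G u = G 1 := by simp
  rw [h2, golomb_one hG] at h
  omega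

theorem golomb_le_self {G : ℕ → ℕ} (hG : IsGolomb G) (n : ℕ) : G n ≤ n := by
  rcases Nat.eq_zero_or_pos n with h | h
  · subst h; rw [hG.zero]
  · have h1 : n ≤ ∑ u ∈ Finset.Ico 1 (n + 1), G u := by
      have h2 : ∑ u ∈ Finset.Ico 1 (n + 1), 1 ≤ ∑ u ∈ Finset.Ico 1 (n + 1), G u :=
        Finset.sum_le_sum fun u hu => hG.pos u (Finset.mem_Ico.1 hu).1
      simpa using h2
    have := (golomb_lt_iff hG (n + 1) n (by omega) h).2 h1
    omega

theorem golomb_two {G : ℕ → ℕ} (hG : IsGolomb G) : G 2 = 2 :=
  le_antisymm (golomb_le_self hG 2) (golomb_two_le hG 2 le_rfl)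

theorem golomb_three {G : ℕ → ℕ} (hG : IsGolomb G) : G 3 = 2 := by
  have h := (golomb_lt_iff hG 3 3 (by norm_num) (by norm_num)).2 (by
    rw [Finset.sum_Ico_succ_top (by norm_num), Finset.sum_Ico_succ_top (by norm_num),
      golomb_one hG, golomb_two hG]
    simp)
  have := golomb_two_le hG 3 (by norm_num)
  omega

/-- The first window of the almost Golomb sequence is a shifted Golomb sequence. -/
theorem A_eq_golomb {G : ℕ → ℕ} (hG : IsGolomb G) (r : ℕ) (hr : 3 ≤ r) :
    ∀ n, 3 ≤ n → n ≤ r → A r n = G (n - 1) := by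
  intro n
  induction n using Nat.strong_induction_on with
  | _ n ih =>
    intro hn hnr
    have h1 : 2 ≤ A r n := (two_le_A_iff r n).2 (by omega)
    have h2 : 2 ≤ G (n - 1) := golomb_two_le hG _ (by omega)
    have key : ∀ w, 3 ≤ w → (w ≤ A r n ↔ w ≤ G (n - 1)) := by
      intro w hw
      rcases Nat.lt_or_ge w n with hwn | hwn
      · rw [le_A_iff r (by omega) w n hw, windowSum_eq_all r (A r) (A_zero r) w (by omega)]
        have h3 : ∑ j ∈ range (w + 1), A r j = 2 + ∑ u ∈ Finset.Ico 1 w, G u := by
          rw [← Finset.sum_range_add_sum_Ico _ (show 3 ≤ w + 1 by omega)]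
          have h4 : ∑ j ∈ Finset.Ico 3 (w + 1), A r j = ∑ j ∈ Finset.Ico 3 (w + 1), G (j - 1) :=
            Finset.sum_congr rfl fun j hj => by
              rw [Finset.mem_Ico] at hj
              exact ih j (by omega) hj.1 (by omega)
          have h5 : ∑ j ∈ Finset.Ico 3 (w + 1), G (j - 1) = ∑ j ∈ Finset.Ico 2 w, G j := by
            have := Finset.sum_Ico_add' (fun j => G (j - 1)) 2 w 1
            simpa using this.symm
          have h6 : ∑ u ∈ Finset.Ico 1 w, G u = 1 + ∑ u ∈ Finset.Ico 2 w, G u := by
            rw [Finset.sum_eq_sum_Ico_succ_bot (by omega), golomb_one hG]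
          rw [h4, h5, h6]
          simp [Finset.sum_range_succ, A_zero, A_one, A_two]
          omega
        rw [h3]
        have h7 := golomb_lt_iff hG w (n - 1) (by omega) (by omega)
        constructor
        · intro h
          by_contra h0
          have := h7.1 (by omega)
          omega
        · intro h
          by_contra h0
          have := h7.2 (by omega)
          omega
      · have h3 := A_lt r n hn
        have h4 := golomb_le_self hG (n - 1)
        constructor
        · intro h; omega
        · intro h; omega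
    rcases Nat.lt_or_ge (A r n) 3 with h3 | h3
    · rcases Nat.lt_or_ge (G (n - 1)) 3 with h4 | h4
      · omega
      · have := (key _ h4).2 le_rfl
        omega
    · have h4 := (key _ h3).1 le_rfl
      have h5 := (key _ (h3.trans h4)).2 le_rfl
      omega

theorem hsum_of {G : ℕ → ℕ} (hG : IsGolomb G) (r g : ℕ) (hr : 3 ≤ r) (hg : G (r - 1) ≤ g) :
    ∀ v, 2 ≤ v → v + g + 1 ≤ r → r ≤ ∑ j ∈ Finset.Ico (v + 2) (v + g + 2), A r j := by
  intro v hv hvr
  have hg1 : 1 ≤ g := (hG.pos (r - 1) (by omega)).trans hg
  have h1 : ∑ j ∈ Finset.Ico 3 (g + 3), A r j ≤ ∑ j ∈ Finset.Ico (v + 2) (v + g + 2), A r j := by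
    have e1 := Finset.sum_Ico_add' (A r) 3 (g + 3) (v - 1)
    have e2 : 3 + (v - 1) = v + 2 := by omega
    have e3 : g + 3 + (v - 1) = v + g + 2 := by omega
    rw [e2, e3] at e1
    rw [← e1]
    exact Finset.sum_le_sum fun j _ => A_mono r (Nat.le_add_right _ _)
  have h2 : ∑ j ∈ Finset.Ico 3 (g + 3), A r j = ∑ j ∈ Finset.Ico 3 (g + 3), G (j - 1) :=
    Finset.sum_congr rfl fun j hj => by
      rw [Finset.mem_Ico] at hj
      exact A_eq_golomb hG r hr j hj.1 (by omega)
  have h3 : ∑ j ∈ Finset.Ico 3 (g + 3), G (j - 1) = ∑ j ∈ Finset.Ico 2 (g + 2), G j := by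
    have := Finset.sum_Ico_add' (fun j => G (j - 1)) 2 (g + 2) 1
    simpa using this.symm
  have h4 : ∑ u ∈ Finset.Ico 1 (g + 2), G u = 1 + ∑ u ∈ Finset.Ico 2 (g + 2), G u := by
    rw [Finset.sum_eq_sum_Ico_succ_bot (by omega), golomb_one hG]
  have h5 : ∑ u ∈ Finset.Ico 1 (g + 2), G u = ∑ u ∈ Finset.Ico 1 (g + 1), G u + G (g + 1) :=
    Finset.sum_Ico_succ_top (by omega) _
  have h6 := (golomb_lt_iff hG (g + 1) (r - 1) (by omega) (by omega)).1 (by omega)
  have h7 := golomb_two_le hG (g + 1) (by omega)
  omega

/-! ### Existence and uniqueness of Golomb's sequence -/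

/-- One step of the construction of Golomb's sequence. -/
def stepG (n : ℕ) (g : ℕ → ℕ) : ℕ :=
  if n ≤ 2 then n else
    if n = (∑ u ∈ Finset.Ico 1 (g (n - 1) + 1), g u) + 1 then g (n - 1) + 1 else g (n - 1)

/-- Golomb's sequence (see `isGolomb_golomb`). -/
def golomb : ℕ → ℕ := recSeq stepG

theorem golomb_zero' : golomb 0 = 0 := by
  unfold golomb; rw [recSeq_eq]; simp [stepG]

theorem golomb_one' : golomb 1 = 1 := by
  unfold golomb; rw [recSeq_eq]; simp [stepG]

theorem golomb_two' : golomb 2 = 2 := by
  unfold golomb; rw [recSeq_eq]; simp [stepG]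

theorem golomb_succ_raw (n : ℕ) (hn : 2 ≤ n) :
    ∃ g : ℕ → ℕ, (∀ m, m < n + 1 → g m = golomb m) ∧
      golomb (n + 1) = if n + 1 = (∑ u ∈ Finset.Ico 1 (golomb n + 1), g u) + 1
        then golomb n + 1 else golomb n := by
  refine ⟨fun m => if m < n + 1 then golomb m else 0, ?_, ?_⟩
  · intro m hm
    simp [hm]
  · have h1 : golomb (n + 1) = stepG (n + 1) (fun m => if m < n + 1 then golomb m else 0) := by
      unfold golomb
      rw [recSeq_eq]
    rw [h1]
    unfold stepG
    have h2 : ¬ (n + 1 ≤ 2) := by omega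
    rw [if_neg h2]
    have h4 : n + 1 - 1 = n := by omega
    rw [h4]
    simp only [Nat.lt_succ_self, if_true]

theorem golomb_slow (n : ℕ) : golomb n ≤ golomb (n + 1) ∧ golomb (n + 1) ≤ golomb n + 1 := by
  rcases Nat.lt_or_ge n 2 with h | h
  · interval_cases n
    · simp [golomb_zero', golomb_one']
    · simp [golomb_one', golomb_two']
  · obtain ⟨g, -, hg⟩ := golomb_succ_raw n h
    rw [hg]
    split_ifs <;> omega

theorem golomb_monotone : Monotone golomb := monotone_nat_of_le_succ fun n => (golomb_slow n).1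

theorem golomb_le (n : ℕ) : golomb n ≤ n := by
  induction n with
  | zero => rw [golomb_zero']
  | succ n ih => have := (golomb_slow n).2; omega

theorem golomb_pos (n : ℕ) (hn : 1 ≤ n) : 1 ≤ golomb n := by
  have := golomb_monotone hn
  rwa [golomb_one'] at this

theorem golomb_succ (n : ℕ) (hn : 2 ≤ n) :
    golomb (n + 1) = if n + 1 = (∑ u ∈ Finset.Ico 1 (golomb n + 1), golomb u) + 1
        then golomb n + 1 else golomb n := by
  obtain ⟨g, hg1, hg2⟩ := golomb_succ_raw n hn
  have h := golomb_le n
  have : ∑ u ∈ Finset.Ico 1 (golomb n + 1), g u = ∑ u ∈ Finset.Ico 1 (golomb n + 1), golomb u :=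
    Finset.sum_congr rfl fun u hu => hg1 u (by rw [Finset.mem_Ico] at hu; omega)
  rw [hg2, this]

theorem golomb_inv (n : ℕ) (hn : 1 ≤ n) : n ≤ ∑ u ∈ Finset.Ico 1 (golomb n + 1), golomb u := by
  induction n, hn using Nat.le_induction with
  | base => rw [golomb_one']; simp [golomb_one']
  | succ n hn ih =>
    rcases Nat.eq_or_lt_of_le hn with h | h
    · subst h
      rw [golomb_two']
      simp [Finset.sum_Ico_succ_top, golomb_one', golomb_two']
    · have hs := golomb_succ n h
      split_ifs at hs with hj
      · rw [hs, Finset.sum_Ico_succ_top (by omega)]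
        have := golomb_pos (golomb n + 1) (by omega)
        omega
      · rw [hs]; omega

theorem golomb_jump (w : ℕ) (hw : 1 ≤ w) :
    ∀ n, w ≤ golomb n → ∑ u ∈ Finset.Ico 1 w, golomb u < n := by
  intro n
  induction n with
  | zero => intro h; rw [golomb_zero'] at h; omega
  | succ n ih =>
    intro h
    rcases Nat.lt_or_ge n 2 with hn | hn
    · interval_cases n
      · have : w = 1 := by rw [golomb_one'] at h; omega
        subst this; simp
      · rw [golomb_two'] at h
        interval_cases w
        · simp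
        · simp [golomb_one']
    · have hs := golomb_succ n hn
      split_ifs at hs with hj
      · rcases Nat.lt_or_ge (golomb n) w with hlt | hge
        · have : w = golomb n + 1 := by omega
          rw [this]; omega
        · exact (ih hge).trans (Nat.lt_succ_self n)
      · rw [hs] at h
        exact (ih h).trans (Nat.lt_succ_self n)

theorem le_golomb_iff (w n : ℕ) (hw : 1 ≤ w) (hn : 1 ≤ n) :
    w ≤ golomb n ↔ ∑ u ∈ Finset.Ico 1 w, golomb u < n := by
  constructor
  · exact golomb_jump w hw n
  · intro h
    by_contra h0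
    have h1 := golomb_inv n hn
    have h2 : ∑ u ∈ Finset.Ico 1 (golomb n + 1), golomb u ≤ ∑ u ∈ Finset.Ico 1 w, golomb u :=
      Finset.sum_le_sum_of_subset (Finset.Ico_subset_Ico_right (by omega))
    omega

theorem isGolomb_golomb : IsGolomb golomb := by
  refine ⟨golomb_zero', golomb_pos, fun n _ => (golomb_slow n).1, ?_⟩
  intro w hw
  have h1 : {i : ℕ | 1 ≤ i ∧ golomb i = w}
      = (Finset.Ico (∑ u ∈ Finset.Ico 1 w, golomb u + 1)
          (∑ u ∈ Finset.Ico 1 (w + 1), golomb u + 1) : Set ℕ) := by
    ext i
    simp only [Set.mem_ofPred_eq, Finset.coe_Ico, Set.mem_Ico]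
    constructor
    · rintro ⟨h, h'⟩
      have h2 := (le_golomb_iff w i hw h).1 (by omega)
      have h3 := (le_golomb_iff (w + 1) i (by omega) h)
      constructor
      · omega
      · by_contra h0
        have := h3.2 (by omega)
        omega
    · rintro ⟨h, h'⟩
      have hi : 1 ≤ i := by omega
      have h2 := (le_golomb_iff w i hw hi).2 (by omega)
      have h3 := (le_golomb_iff (w + 1) i (by omega) hi)
      refine ⟨hi, ?_⟩
      by_contra h0
      have := h3.1 (by omega)
      omega
  unfold mult
  rw [h1, Set.encard_coe_eq_coe_finsetCard, Nat.card_Ico, Finset.sum_Ico_succ_top hw]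
  congr 1
  omega

theorem isGolomb_unique (G H : ℕ → ℕ) (hG : IsGolomb G) (hH : IsGolomb H) : G = H := by
  funext n
  induction n using Nat.strong_induction_on with
  | _ n ih =>
    rcases Nat.eq_zero_or_pos n with h0 | hn
    · subst h0; rw [hG.zero, hH.zero]
    · have key : ∀ w, 1 ≤ w → w ≤ n → (G n < w ↔ H n < w) := by
        intro w hw hwn
        rw [golomb_lt_iff hG w n hw hn, golomb_lt_iff hH w n hw hn]
        have : ∑ u ∈ Finset.Ico 1 w, G u = ∑ u ∈ Finset.Ico 1 w, H u :=
          Finset.sum_congr rfl fun u hu => ih u (by rw [Finset.mem_Ico] at hu; omega)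
        rw [this]
      have h1 := golomb_le_self hG n
      have h2 := golomb_le_self hH n
      have h3 := key (G n) (hG.pos n hn) h1
      have h4 := key (H n) (hH.pos n hn) h2
      omega

/-! ### The maximal multiplicities -/

theorem maxMult_small (r : ℕ) (hr : 2 ≤ r) (hr4 : r ≤ 4) : maxMult (A r) ≤ 3 := by
  unfold maxMult
  refine iSup₂_le fun w hw => ?_
  rcases Nat.lt_or_ge w 3 with h | h
  · interval_cases w
    · rw [mult_one]; norm_num
    · exact mult_two r hr
  · rw [mult_eq r hr w h]
    have hb : A r (w + 1) ≤ A r (w + 1 - r) + 3 := by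
      rcases Nat.lt_or_ge r 4 with h4 | h4
      · rcases Nat.lt_or_ge (w + 1) r with h5 | h5
        · omega
        · have := A_lip r (w + 1 - r) r
          have e : w + 1 - r + r = w + 1 := by omega
          rw [e] at this
          omega
      · have e : r = 4 := by omega
        subst e
        refine growth_le 4 3 (by norm_num) le_rfl ?_ ?_ w h
        · have := (A_slow 4 3).2
          rw [A_three] at this
          exact this
        · intro v hv hv2
          omega
    exact_mod_cast (show A r (w + 1) - A r (w + 1 - r) ≤ 3 by omega)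

theorem maxMult_eq {G : ℕ → ℕ} (hG : IsGolomb G) (r : ℕ) (hr : 5 ≤ r) :
    maxMult (A r) = (G (r - 1) : ℕ∞) := by
  have hAr : A r r = G (r - 1) := A_eq_golomb hG r (by omega) r (by omega) le_rfl
  have hg3 : 3 ≤ G (r - 1) := by
    have h4 : 3 ≤ G 4 := by
      by_contra h0
      have h := (golomb_lt_iff hG 3 4 (by norm_num) (by norm_num)).1 (by omega)
      rw [Finset.sum_Ico_succ_top (by norm_num), Finset.sum_Ico_succ_top (by norm_num),
        golomb_one hG, golomb_two hG] at h
      simp at h
    exact h4.trans (golomb_mono hG (by norm_num) (by omega))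
  apply le_antisymm
  · unfold maxMult
    refine iSup₂_le fun w hw => ?_
    rcases Nat.lt_or_ge w 3 with h | h
    · interval_cases w
      · rw [mult_one]
        exact_mod_cast (show 1 ≤ G (r - 1) by omega)
      · refine (mult_two r (by omega)).trans ?_
        exact_mod_cast hg3
    · rw [mult_eq r (by omega) w h]
      have := growth_le r (G (r - 1)) (by omega) hg3 (le_of_eq hAr)
        (hsum_of hG r (G (r - 1)) (by omega) le_rfl) w h
      exact_mod_cast (show A r (w + 1) - A r (w + 1 - r) ≤ G (r - 1) by omega)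
  · have h1 : mult (A r) (r - 1) = (G (r - 1) : ℕ∞) := by
      rw [mult_eq r (by omega) (r - 1) (by omega)]
      have e1 : r - 1 + 1 = r := by omega
      rw [e1, Nat.sub_self, A_zero, hAr]
      simp
    rw [← h1]
    unfold maxMult
    exact le_iSup₂ (f := fun n (_ : 1 ≤ n) => mult (A r) n) (r - 1) (by omega)

theorem threshold_iff {G : ℕ → ℕ} (hG : IsGolomb G) (k r : ℕ) (hk : 4 ≤ k) (hr : 2 ≤ r) :
    (k : ℕ∞) ≤ maxMult (A r) ↔ ∑ n ∈ Finset.Ico 1 k, G n + 2 ≤ r := by
  have h5 : 5 ≤ ∑ n ∈ Finset.Ico 1 k, G n := by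
    have h1 : ∑ n ∈ Finset.Ico 1 4, G n ≤ ∑ n ∈ Finset.Ico 1 k, G n :=
      Finset.sum_le_sum_of_subset (Finset.Ico_subset_Ico_right hk)
    have h2 : ∑ n ∈ Finset.Ico 1 4, G n = 5 := by
      rw [Finset.sum_Ico_succ_top (by norm_num), Finset.sum_Ico_succ_top (by norm_num),
        Finset.sum_Ico_succ_top (by norm_num), golomb_one hG, golomb_two hG, golomb_three hG]
      simp
    omega
  rcases Nat.lt_or_ge r 5 with h | h
  · constructor
    · intro h1
      have h2 := h1.trans (maxMult_small r hr (by omega))
      have h3 : k ≤ 3 := by exact_mod_cast h2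
      omega
    · intro h1
      omega
  · rw [maxMult_eq hG r h]
    have h1 := golomb_lt_iff hG k (r - 1) (by omega) (by omega)
    constructor
    · intro h2
      have h3 : k ≤ G (r - 1) := by exact_mod_cast h2
      by_contra h0
      have := h1.2 (by omega)
      omega
    · intro h2
      have h3 : k ≤ G (r - 1) := by
        by_contra h0
        have := h1.1 (by omega)
        omega
      exact_mod_cast h3

/-- In the almost Golomb sequence no smaller value `m` would satisfy the identity. -/
theorem update_fails (r : ℕ) (hr : 2 ≤ r) (n m : ℕ) (hn : 2 ≤ n) (h1 : A r (n - 1) ≤ m)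
    (h2 : m < A r n) :
    Function.update (A r) n m (windowSum r (Function.update (A r) n m) n) ≠ n := by
  have hws : windowSum r (Function.update (A r) n m) n + A r n = windowSum r (A r) n + m := by
    obtain ⟨q, rfl⟩ : ∃ q, r = q + 1 := ⟨r - 1, by omega⟩
    unfold windowSum
    rw [Finset.sum_range_succ', Finset.sum_range_succ']
    have h3 : ∑ k ∈ range q, Function.update (A (q + 1)) n m (n - (k + 1))
        = ∑ k ∈ range q, A (q + 1) (n - (k + 1)) :=
      Finset.sum_congr rfl fun i _ => Function.update_of_ne (by omega) _ _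
    rw [h3]
    simp only [Nat.sub_zero, Function.update_self]
    omega
  rcases Nat.eq_or_lt_of_le hn with h3 | h3
  · subst h3
    have h4 : m = 1 := by
      rw [A_two] at h2
      have : 1 ≤ A r (2 - 1) := A_pos r _ (by norm_num)
      omega
    subst h4
    have h5 : windowSum r (A r) 2 = 3 := by
      rw [windowSum_eq_all r (A r) (A_zero r) 2 hr]
      simp [Finset.sum_range_succ, A_zero, A_one, A_two]
    have h6 : windowSum r (Function.update (A r) 2 1) 2 = 2 := by
      rw [h5, A_two] at hws
      omega
    rw [h6, Function.update_self]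
    norm_num
  · have h4 : windowSum r (Function.update (A r) n m) n < windowSum r (A r) n := by omega
    have h5 : ¬ n ≤ A r (windowSum r (Function.update (A r) n m) n) := by
      rw [le_A_iff r hr n _ h3]
      omega
    by_cases h6 : windowSum r (Function.update (A r) n m) n = n
    · rw [h6, Function.update_self]
      have := A_le r n
      omega
    · rw [Function.update_of_ne h6]
      omega

/-- **Main theorem.**  Full answer to Q1. -/
theorem result :
    -- the almost Golomb sequence of every order exists and is unique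
    (∀ r, 2 ≤ r → ∃! a : ℕ → ℕ, IsAlmostGolomb r a) ∧
    -- it is nested and no smaller value would satisfy the identity at any index
    (∀ r a, 2 ≤ r → IsAlmostGolomb r a → ∀ n m, 2 ≤ n → a (n - 1) ≤ m → m < a n →
      Function.update a n m (windowSum r (Function.update a n m) n) ≠ n) ∧
    -- Golomb's sequence exists and is unique
    (∃! G : ℕ → ℕ, IsGolomb G) ∧
    -- thresholds
    (∀ (a : ℕ → ℕ → ℕ) (G : ℕ → ℕ), (∀ r, 2 ≤ r → IsAlmostGolomb r (a r)) → IsGolomb G →
      (∀ r, 5 ≤ r → maxMult (a r) = (G (r - 1) : ℕ∞)) ∧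
      ∀ k : ℕ, 4 ≤ k → ∃ j j' : ℕ,
        IsLeast {r : ℕ | 2 ≤ r ∧ (k : ℕ∞) ≤ maxMult (a r)} j ∧
        IsLeast {r : ℕ | 2 ≤ r ∧ ((k + 1 : ℕ) : ℕ∞) ≤ maxMult (a r)} j' ∧
        j = ∑ n ∈ Finset.Icc 1 (k - 1), G n + 2 ∧
        j' = j + G k) := by
  refine ⟨fun r hr => ⟨A r, isAlmostGolomb_A r hr,
      fun b hb => isAlmostGolomb_unique r b (A r) hb (isAlmostGolomb_A r hr)⟩, ?_,
    ⟨golomb, isGolomb_golomb, fun H hH => isGolomb_unique H golomb hH isGolomb_golomb⟩, ?_⟩
  · intro r a hr ha n m hn h1 h2
    have : a = A r := isAlmostGolomb_unique r a (A r) ha (isAlmostGolomb_A r hr)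
    subst this
    exact update_fails r hr n m hn h1 h2
  · intro a G ha hG
    have hA : ∀ r, 2 ≤ r → a r = A r := fun r hr =>
      isAlmostGolomb_unique r (a r) (A r) (ha r hr) (isAlmostGolomb_A r hr)
    refine ⟨fun r hr => by rw [hA r (by omega)]; exact maxMult_eq hG r hr, ?_⟩
    have hset : ∀ k : ℕ, 4 ≤ k → IsLeast {r : ℕ | 2 ≤ r ∧ (k : ℕ∞) ≤ maxMult (a r)}
        (∑ n ∈ Finset.Ico 1 k, G n + 2) := by
      intro k hk
      constructor
      · have h2 : 2 ≤ ∑ n ∈ Finset.Ico 1 k, G n + 2 := by omega
        refine ⟨h2, ?_⟩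
        rw [hA _ h2]
        exact (threshold_iff hG k _ hk h2).2 le_rfl
      · rintro r ⟨h2, h3⟩
        rw [hA _ h2] at h3
        exact (threshold_iff hG k r hk h2).1 h3
    intro k hk
    refine ⟨_, _, hset k hk, hset (k + 1) (by omega), ?_, ?_⟩
    · have : Finset.Ico 1 k = Finset.Icc 1 (k - 1) := by
        ext i
        rw [Finset.mem_Ico, Finset.mem_Icc]
        omega
      rw [this]
    · rw [Finset.sum_Ico_succ_top (by omega)]
      omega

end Pool.Agent.Results.MP_ac9862_nt.Thresholds
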